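import Mathlib
import Pool.Agent.W831.CP.Order

/-!
Every countable poset is represented by cyclically five-edge-connected cubic graphs ordered by the
existence of cycle-continuous maps.

For a finite set `A` of positive integers the graph `gr A` consists of six copies of a base graph:
one ring of `10 (a + 1)` uncolourable cores for every `a` in `A`, one long neutral cycle (the spine)
and one long neutral path (an arm) from the spine to every ring. Vertices of degree two of the base
graph are joined between the copies by the five perfect matchings of a one-factorisation of the
complete graph on six points. Cores are rigid, neutral vertices are flexible, and all six copies of a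
neutral path can be moved at the same time along any walk of the target graph. Hence `gr A` maps to
`gr B` if and only if the size of every ring of `A` is a multiple of the size of some ring of `B`.
-/

namespace Pool.Agent.Results.MP_75ff39_co.EveryCountablePoset

open Pool.Agent.Results.MP_75ff39_co.InfiniteAntichain
open Pool.Agent.W831.CP

universe u

/-- For `k = 4` and for `k = 5` the class `𝒞ₖ` contains every countable poset. -/
theorem result : ∀ k : ℕ, k = 4 ∨ k = 5 → ∀ (P : Type u) [PartialOrder P] [Countable P],
    ∃ G : P → MultiGraph, (∀ p, (G p).InClass k) ∧ ∀ p q, (G p).Le (G q) ↔ p ≤ q := by
  intro k hk P _ _
  obtain ⟨U, hU, hUle⟩ := order_rep (P := P)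
  refine ⟨fun p => gr (U p), fun p => gr_class (U p) k (by omega), ?_⟩
  intro p q
  rw [← hUle p q]
  constructor
  · intro h a ha
    exact dvd_of_le' h a ha
  · intro h
    exact le_of_dvd (hU p) (hU q) h

end Pool.Agent.Results.MP_75ff39_co.EveryCountablePoset
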